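import Pool.Agent.Q294.Rs2

set_option autoImplicit false

/-! The balance of exchangeable patterns in walks with a fugacity. -/

namespace Q78.CV

open Finset TH966.AK Q294.Rs
open scoped Classical

noncomputable section

variable {A : P → P → Prop} {Z : Rule A}

/-- weighted numbers of moves -/
def NS (X : Sub Z) (h : List P × List P → ℝ) (w : List P) : ℝ := ∑ q ∈ X.sys.S w, h q

def NB (X : Sub Z) (h : List P × List P → ℝ) (w : List P) : ℝ := ∑ q ∈ X.sys.B w, h q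

theorem B_le' (Z : Rule A) (n : ℕ) (w : List P) (hw : w ∈ Kw A n) :
    (Z.B w).card ≤ Z.CC * (n + 1) := by
  rw [Z.mem_K] at hw
  have h1 : (Z.B w).card ≤ (w.toFinset.biUnion Z.cand).card := Finset.card_filter_le _ _
  have h2 := Finset.card_biUnion_le_card_mul w.toFinset Z.cand Z.c0 fun x _ => Z.card_cand x
  have h3 : w.toFinset.card ≤ n + 1 := (List.toFinset_card_le w).trans hw.1.le
  have h4 : w.toFinset.card * Z.c0 ≤ (n + 1) * Z.c0 := Nat.mul_le_mul_right _ h3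
  have h5 : Z.c0 ≤ Z.CC := by unfold Rule.CC; omega
  have h6 : (n + 1) * Z.c0 ≤ Z.CC * (n + 1) := by
    rw [mul_comm]; exact Nat.mul_le_mul_right _ h5
  omega

theorem sysB_le (X : Sub Z) (n : ℕ) (w : List P) (hw : w ∈ X.K n) :
    (X.sys.B w).card ≤ Z.CC * (n + 1) :=
  (card_le_card fun _ hq => ((mem_sysB X).1 hq).1).trans (B_le' Z n w (X.sub n hw))

theorem sysS_le (X : Sub Z) (n : ℕ) (w : List P) (hw : w ∈ X.K n) :
    (X.sys.S w).card ≤ Z.CC * (n + 1) := X.sys.S_le n w hw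

theorem abs_sum_le {h : List P × List P → ℝ} (hh : ∀ q, |h q| ≤ 1)
    (F : Finset (List P × List P)) : |∑ q ∈ F, h q| ≤ F.card := by
  refine (abs_sum_le_sum_abs _ _).trans ?_
  refine (sum_le_sum fun q _ => hh q).trans ?_
  simp

theorem NS_le (X : Sub Z) {h : List P × List P → ℝ} (hh : ∀ q, |h q| ≤ 1) {n : ℕ} {w : List P}
    (hw : w ∈ X.K n) : |NS X h w| ≤ Z.CC * (n + 1) := by
  refine (abs_sum_le hh _).trans ?_
  exact_mod_cast sysS_le X n w hw

theorem NB_le (X : Sub Z) {h : List P × List P → ℝ} (hh : ∀ q, |h q| ≤ 1) {n : ℕ} {w : List P}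
    (hw : w ∈ X.K n) : |NB X h w| ≤ Z.CC * (n + 1) := by
  refine (abs_sum_le hh _).trans ?_
  exact_mod_cast sysB_le X n w hw

/-- sums over two sets with small differences -/
theorem sum_diff {h : List P × List P → ℝ} (hh : ∀ q, |h q| ≤ 1)
    {F G N N' : Finset (List P × List P)} {C : ℕ} (h1 : ∀ q ∈ F, q ∉ G → q ∈ N)
    (h2 : ∀ q ∈ G, q ∉ F → q ∈ N') (hN : N.card ≤ C) (hN' : N'.card ≤ C) :
    |∑ q ∈ F, h q - ∑ q ∈ G, h q| ≤ 2 * C := by
  have e1 : ∑ q ∈ F, h q = ∑ q ∈ F \ G, h q + ∑ q ∈ F ∩ G, h q := by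
    rw [← sum_union (by
      rw [Finset.disjoint_left]
      intro q hq hq'
      rw [mem_sdiff] at hq
      rw [mem_inter] at hq'
      exact hq.2 hq'.2), sdiff_union_inter]
  have e2 : ∑ q ∈ G, h q = ∑ q ∈ G \ F, h q + ∑ q ∈ F ∩ G, h q := by
    rw [inter_comm, ← sum_union (by
      rw [Finset.disjoint_left]
      intro q hq hq'
      rw [mem_sdiff] at hq
      rw [mem_inter] at hq'
      exact hq.2 hq'.2), sdiff_union_inter]
  have c1 : ((F \ G).card : ℝ) ≤ C := by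
    have : (F \ G).card ≤ N.card := card_le_card fun q hq => by
      rw [mem_sdiff] at hq
      exact h1 q hq.1 hq.2
    exact_mod_cast this.trans hN
  have c2 : ((G \ F).card : ℝ) ≤ C := by
    have : (G \ F).card ≤ N'.card := card_le_card fun q hq => by
      rw [mem_sdiff] at hq
      exact h2 q hq.1 hq.2
    exact_mod_cast this.trans hN'
  have a1 := abs_sum_le hh (F \ G)
  have a2 := abs_sum_le hh (G \ F)
  rw [e1, e2, add_sub_add_right_eq_sub]
  refine (abs_sub _ _).trans ?_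
  linarith

/-- the change of the weighted numbers -/
theorem N_change (X : Sub Z) {h : List P × List P → ℝ} (hh : ∀ q, |h q| ≤ 1) {n : ℕ}
    {w : List P} {q : List P × List P} (hw : w ∈ X.K n) (hq : q ∈ X.sys.S w) :
    |NS X h w - NS X h (X.sys.ins w q)| ≤ 2 * Z.CC ∧
    |NB X h w - NB X h (X.sys.ins w q)| ≤ 2 * Z.CC := by
  have hq0 := (mem_sysS X).1 hq
  have hw0 := X.sub n hw
  have hl : lst (X.sys.ins w q) = lst w := lst_ins hw0 hq0.1
  obtain ⟨U, U'⟩ := q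
  have hwK := hw0
  rw [Z.mem_K] at hwK
  have hqS := hq0.1
  rw [Rule.mem_S] at hqS
  obtain ⟨L, R, h1, h2, -⟩ := Rule.rep_all (Z.pair _ _ hqS.1) hwK.2 hqS.2
  simp only at h1 h2
  have e : X.sys.ins w (U, U') = L ++ U' ++ R := h2
  obtain ⟨N, hN, a1, a2⟩ := change_mem (Z := Z) (L := L) (R := R) (Or.inl hqS.1)
    (Z.pair _ _ hqS.1)
  obtain ⟨N', hN', b1, b2⟩ := change_mem (Z := Z) (L := L) (R := R) (Or.inr hqS.1)
    (Z.pair _ _ hqS.1).symm
  simp only at a1 a2 b1 b2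
  rw [← h1, ← h2] at a1 a2 b1 b2
  unfold NS NB
  constructor
  · refine sum_diff hh (N := N) (N' := N') ?_ ?_ hN hN'
    · intro r hr hr'
      rw [mem_sysS] at hr
      refine a1 r hr.1 fun hc => hr' ?_
      rw [mem_sysS, hl]
      exact ⟨hc, hr.2⟩
    · intro r hr hr'
      rw [mem_sysS, hl] at hr
      refine b1 r hr.1 fun hc => hr' ?_
      rw [mem_sysS]
      exact ⟨hc, hr.2⟩
  · refine sum_diff hh (N := N) (N' := N') ?_ ?_ hN hN'
    · intro r hr hr'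
      rw [mem_sysB] at hr
      refine a2 r hr.1 fun hc => hr' ?_
      rw [mem_sysB, hl]
      exact ⟨hc, hr.2⟩
    · intro r hr hr'
      rw [mem_sysB, hl] at hr
      refine b2 r hr.1 fun hc => hr' ?_
      rw [mem_sysB]
      exact ⟨hc, hr.2⟩

/-- double counting -/
theorem dc {α σ : Type} (Y : Sys α σ) (hY : Y.n0 = 0) (n : ℕ) (F : α → σ → ℝ) :
    ∑ w ∈ Y.K n, ∑ q ∈ Y.S w, F (Y.ins w q) q = ∑ w ∈ Y.K (n + Y.s), ∑ q ∈ Y.B w, F w q := by
  rw [Finset.sum_sigma', Finset.sum_sigma']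
  refine Finset.sum_bij'
    (fun (x : (_ : α) × σ) _ => (⟨Y.ins x.1 x.2, x.2⟩ : (_ : α) × σ))
    (fun (y : (_ : α) × σ) _ => (⟨Y.rem y.1 y.2, y.2⟩ : (_ : α) × σ)) ?_ ?_ ?_ ?_ ?_
  · rintro ⟨w, q⟩ hx
    rw [Finset.mem_sigma] at hx ⊢
    exact ⟨Y.ins_K n w q hx.1 hx.2, Y.ins_B n w q hx.1 hx.2⟩
  · rintro ⟨w, q⟩ hx
    rw [Finset.mem_sigma] at hx ⊢
    exact ⟨Y.rem_K n w q (by omega) hx.1 hx.2, Y.rem_S n w q (by omega) hx.1 hx.2⟩
  · rintro ⟨w, q⟩ hx
    rw [Finset.mem_sigma] at hx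
    show (⟨Y.rem (Y.ins w q) q, q⟩ : (_ : α) × σ) = ⟨w, q⟩
    rw [Y.rem_ins n w q hx.1 hx.2]
  · rintro ⟨w, q⟩ hx
    rw [Finset.mem_sigma] at hx
    show (⟨Y.ins (Y.rem w q) q, q⟩ : (_ : α) × σ) = ⟨w, q⟩
    rw [Y.ins_rem n w q (by omega) hx.1 hx.2]
  · rintro ⟨w, q⟩ hx
    rfl

/-- short walks have no downward moves -/
theorem B_short (X : Sub Z) {n : ℕ} (hn : n < Z.s) {w : List P} (hw : w ∈ X.K n) :
    X.sys.B w = ∅ := by
  rw [Finset.eq_empty_iff_forall_notMem]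
  intro q hq
  rw [mem_sysB, Rule.mem_B] at hq
  obtain ⟨⟨hT, hF, -⟩, -⟩ := hq
  have h1 := hF.length_le
  have h2 := (Z.len _ _ hT).2
  have h3 := (Z.len _ _ hT).1
  have hw' := X.sub n hw
  rw [Z.mem_K] at hw'
  obtain ⟨⟨p, r, Y, Y', e1, e2, -⟩, -⟩ := Z.pair _ _ hT
  have h4 : 2 ≤ q.1.length := by rw [e1]; simp
  omega

/-- double counting with a fugacity -/
theorem dcT (X : Sub Z) (x : ℝ) (N : ℕ) (hN : ∀ n, N ≤ n → X.K n = ∅)
    (F : ℕ → List P → List P × List P → ℝ) :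
    ∑ n ∈ range N, x ^ n * ∑ w ∈ X.K n, ∑ q ∈ X.sys.B w, F n w q =
      x ^ Z.s * ∑ n ∈ range N, x ^ n * ∑ w ∈ X.K n, ∑ q ∈ X.sys.S w,
        F (n + Z.s) (X.sys.ins w q) q := by
  have h0 : ∀ n, N ≤ n → x ^ n * ∑ w ∈ X.K n, ∑ q ∈ X.sys.B w, F n w q = 0 := by
    intro n hn
    rw [hN n hn, sum_empty, mul_zero]
  have h1 : ∑ n ∈ range N, x ^ n * ∑ w ∈ X.K n, ∑ q ∈ X.sys.B w, F n w q =
      ∑ n ∈ range (Z.s + N), x ^ n * ∑ w ∈ X.K n, ∑ q ∈ X.sys.B w, F n w q := by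
    refine sum_subset (range_mono (by omega)) fun n _ hn => ?_
    rw [mem_range, not_lt] at hn
    exact h0 n hn
  rw [h1, Finset.sum_range_add, mul_sum]
  have h2 : ∑ n ∈ range Z.s, x ^ n * ∑ w ∈ X.K n, ∑ q ∈ X.sys.B w, F n w q = 0 := by
    refine sum_eq_zero fun n hn => ?_
    rw [sum_eq_zero, mul_zero]
    intro w hw
    rw [B_short X (mem_range.1 hn) hw, sum_empty]
  rw [h2, zero_add]
  refine sum_congr rfl fun n _ => ?_
  have h3 := dc X.sys rfl n (F (n + Z.s))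
  have e : n + X.sys.s = Z.s + n := Nat.add_comm _ _
  rw [e] at h3
  have e2 : n + Z.s = Z.s + n := Nat.add_comm _ _
  rw [e2] at h3 ⊢
  have h3' : ∑ w ∈ X.K n, ∑ q ∈ X.sys.S w, F (Z.s + n) (X.sys.ins w q) q =
    ∑ w ∈ X.K (Z.s + n), ∑ q ∈ X.sys.B w, F (Z.s + n) w q := h3
  rw [h3', pow_add]
  ring

/-- the constant -/
def C2 (Z : Rule A) : ℝ := Z.CC * (2 * Z.s * Z.CC + 2 * Z.CC)

theorem C2_nonneg (Z : Rule A) : 0 ≤ C2 Z := by unfold C2; positivity

/-- **the balance of patterns** -/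
theorem bal (X : Sub Z) {x : ℝ} (hx : 0 < x) {h : List P × List P → ℝ} (hh : ∀ q, |h q| ≤ 1)
    (N : ℕ) (hN : ∀ n, N ≤ n → X.K n = ∅) (M : ℕ) (hM : 1 ≤ M) :
    ∑ n ∈ range N, x ^ n * ∑ w ∈ X.K n,
      ((x ^ Z.s * NS X h w - NB X h w) / ((max (n + 1) M : ℕ) : ℝ)) ^ 2 ≤
      C2 Z * (x ^ Z.s * (1 + x ^ Z.s)) / M * ∑ n ∈ range N, x ^ n * ((X.K n).card : ℝ) := by
  obtain ⟨y, hy⟩ : ∃ y, y = x ^ Z.s := ⟨_, rfl⟩
  have hy0 : 0 < y := by rw [hy]; positivity
  obtain ⟨D, hD⟩ : ∃ D : ℕ → ℝ, D = fun n => ((max (n + 1) M : ℕ) : ℝ) := ⟨_, rfl⟩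
  have hD' : ∀ n, D n = ((max (n + 1) M : ℕ) : ℝ) := fun n => by rw [hD]
  have hD1 : ∀ n, (1 : ℝ) ≤ D n := fun n => by
    rw [hD']
    exact_mod_cast le_max_of_le_left (by omega)
  have hDn : ∀ n : ℕ, (n : ℝ) + 1 ≤ D n := fun n => by
    rw [hD']
    have : n + 1 ≤ max (n + 1) M := le_max_left _ _
    exact_mod_cast this
  have hDM : ∀ n : ℕ, (M : ℝ) ≤ D n := fun n => by
    rw [hD']
    exact_mod_cast le_max_right _ _
  have hDs : ∀ n : ℕ, D n ≤ D (n + Z.s) ∧ D (n + Z.s) ≤ D n + Z.s := fun n => by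
    rw [hD', hD']
    constructor
    · have : max (n + 1) M ≤ max (n + Z.s + 1) M := max_le_max (by omega) le_rfl
      exact_mod_cast this
    · have : max (n + Z.s + 1) M ≤ max (n + 1) M + Z.s := by omega
      exact_mod_cast this
  obtain ⟨E, hE⟩ : ∃ E : List P → ℝ, E = fun w => y * NS X h w - NB X h w := ⟨_, rfl⟩
  have hE' : ∀ w, E w = y * NS X h w - NB X h w := fun w => by rw [hE]
  obtain ⟨c, hc⟩ : ∃ c : ℝ, c = Z.CC := ⟨_, rfl⟩
  have hc0 : 0 ≤ c := by rw [hc]; positivity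
  obtain ⟨s, hs⟩ : ∃ s : ℝ, s = Z.s := ⟨_, rfl⟩
  have hs0 : 0 ≤ s := by rw [hs]; positivity
  have hEle : ∀ n, ∀ w ∈ X.K n, |E w| ≤ (1 + y) * c * (n + 1) := by
    intro n w hw
    rw [hE']
    refine (abs_sub _ _).trans ?_
    rw [abs_mul, abs_of_pos hy0]
    have h1 := NS_le X hh hw
    have h2 := NB_le X hh hw
    rw [← hc] at h1 h2
    nlinarith
  have hEch : ∀ n, ∀ w ∈ X.K n, ∀ q ∈ X.sys.S w, |E w - E (X.sys.ins w q)| ≤
      (1 + y) * (2 * c) := by
    intro n w hw q hq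
    obtain ⟨h1, h2⟩ := N_change X hh hw hq
    rw [← hc] at h1 h2
    rw [hE', hE']
    have e : y * NS X h w - NB X h w - (y * NS X h (X.sys.ins w q) - NB X h (X.sys.ins w q)) =
      y * (NS X h w - NS X h (X.sys.ins w q)) - (NB X h w - NB X h (X.sys.ins w q)) := by ring
    rw [e]
    refine (abs_sub _ _).trans ?_
    rw [abs_mul, abs_of_pos hy0]
    nlinarith
  -- the sum as a difference
  have e1 : ∑ n ∈ range N, x ^ n * ∑ w ∈ X.K n,
      ((x ^ Z.s * NS X h w - NB X h w) / ((max (n + 1) M : ℕ) : ℝ)) ^ 2 =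
      ∑ n ∈ range N, x ^ n * ∑ w ∈ X.K n, ∑ q ∈ X.sys.S w, y * (h q * (E w / D n ^ 2)) -
      ∑ n ∈ range N, x ^ n * ∑ w ∈ X.K n, ∑ q ∈ X.sys.B w, h q * (E w / D n ^ 2) := by
    rw [← sum_sub_distrib]
    refine sum_congr rfl fun n _ => ?_
    rw [← mul_sub, ← sum_sub_distrib]
    congr 1
    refine sum_congr rfl fun w _ => ?_
    rw [← hy, ← hD', ← hE', ← mul_sum, ← sum_mul, ← sum_mul, div_pow]
    have : (∑ q ∈ X.sys.S w, h q) = NS X h w := rfl
    rw [this]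
    have : (∑ q ∈ X.sys.B w, h q) = NB X h w := rfl
    rw [this]
    have e2 : y * (NS X h w * (E w / D n ^ 2)) - NB X h w * (E w / D n ^ 2) =
        E w * (y * NS X h w - NB X h w) / D n ^ 2 := by ring
    rw [e2, ← hE']
    ring
  have e2 := dcT X x N hN (fun n w q => h q * (E w / D n ^ 2))
  rw [← hy] at e2
  rw [e1, e2, mul_sum, ← sum_sub_distrib, mul_sum]
  refine sum_le_sum fun n _ => ?_
  have e3 : x ^ n * ∑ w ∈ X.K n, ∑ q ∈ X.sys.S w, y * (h q * (E w / D n ^ 2)) -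
      y * (x ^ n * ∑ w ∈ X.K n, ∑ q ∈ X.sys.S w,
        h q * (E (X.sys.ins w q) / D (n + Z.s) ^ 2)) =
      x ^ n * ∑ w ∈ X.K n, ∑ q ∈ X.sys.S w,
        y * (h q * (E w / D n ^ 2 - E (X.sys.ins w q) / D (n + Z.s) ^ 2)) := by
    rw [mul_left_comm y, ← mul_sub, mul_sum (X.K n), ← sum_sub_distrib]
    congr 1
    refine sum_congr rfl fun w _ => ?_
    rw [mul_sum (X.sys.S w), ← sum_sub_distrib]
    exact sum_congr rfl fun q _ => by ring
  rw [e3, mul_left_comm]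
  refine mul_le_mul_of_nonneg_left ?_ (by positivity)
  have hMR : (1 : ℝ) ≤ M := by exact_mod_cast hM
  have key : ∀ w ∈ X.K n, ∑ q ∈ X.sys.S w,
      y * (h q * (E w / D n ^ 2 - E (X.sys.ins w q) / D (n + Z.s) ^ 2)) ≤
      C2 Z * (y * (1 + y)) / M := by
    intro w hw
    have k1 : ∀ q ∈ X.sys.S w,
        y * (h q * (E w / D n ^ 2 - E (X.sys.ins w q) / D (n + Z.s) ^ 2)) ≤
        y * (1 + y) * (2 * s * c + 2 * c) / D n ^ 2 := by
      intro q hq
      obtain ⟨a, ha⟩ : ∃ a, a = D n := ⟨_, rfl⟩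
      obtain ⟨b, hb⟩ : ∃ b, b = D (n + Z.s) := ⟨_, rfl⟩
      have ha1 := hD1 n
      have hab := hDs n
      have han := hDn n
      rw [← ha] at ha1 hab han
      rw [← hb, ← hs] at hab
      rw [← ha, ← hb]
      obtain ⟨hab1, hab2⟩ := hab
      have hb1 : 1 ≤ b := by linarith
      have k2 : |E w / a ^ 2 - E (X.sys.ins w q) / b ^ 2| ≤
          (1 + y) * (2 * s * c + 2 * c) / a ^ 2 := by
        have e4 : E w / a ^ 2 - E (X.sys.ins w q) / b ^ 2 =
            E w * (1 / a ^ 2 - 1 / b ^ 2) + (E w - E (X.sys.ins w q)) / b ^ 2 := by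
          ring
        rw [e4]
        refine (abs_add_le _ _).trans ?_
        rw [abs_mul, abs_div]
        have f1 : |1 / a ^ 2 - 1 / b ^ 2| ≤ 2 * s / a ^ 3 := by
          have f2 : 1 / b ^ 2 ≤ 1 / a ^ 2 :=
            one_div_le_one_div_of_le (by positivity) (by gcongr)
          rw [abs_of_nonneg (by linarith)]
          have f3 : 1 / a ^ 2 - 1 / b ^ 2 = (b - a) * ((b + a) / (a ^ 2 * b ^ 2)) := by
            field_simp
            ring
          rw [f3]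
          have f4 : (b + a) / (a ^ 2 * b ^ 2) ≤ 2 / a ^ 3 := by
            rw [div_le_div_iff₀ (by positivity) (by positivity)]
            have f5 : (b + a) * a ≤ 2 * b ^ 2 := by nlinarith
            calc (b + a) * a ^ 3 = a ^ 2 * ((b + a) * a) := by ring
              _ ≤ a ^ 2 * (2 * b ^ 2) := mul_le_mul_of_nonneg_left f5 (by positivity)
              _ = 2 * (a ^ 2 * b ^ 2) := by ring
          calc (b - a) * ((b + a) / (a ^ 2 * b ^ 2)) ≤ s * (2 / a ^ 3) :=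
                mul_le_mul (by linarith) f4 (by positivity) hs0
            _ = 2 * s / a ^ 3 := by ring
        have f6 : |E w| * |1 / a ^ 2 - 1 / b ^ 2| ≤ (1 + y) * (2 * s * c) / a ^ 2 := by
          have f7 := hEle n w hw
          have f8 : |E w| ≤ (1 + y) * c * a :=
            f7.trans (mul_le_mul_of_nonneg_left han (by positivity))
          calc |E w| * |1 / a ^ 2 - 1 / b ^ 2| ≤ ((1 + y) * c * a) * (2 * s / a ^ 3) :=
                mul_le_mul f8 f1 (abs_nonneg _) (by positivity)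
            _ = (1 + y) * (2 * s * c) / a ^ 2 := by
                field_simp
        have f9 : |E w - E (X.sys.ins w q)| / |b ^ 2| ≤ (1 + y) * (2 * c) / a ^ 2 := by
          rw [abs_of_pos (show 0 < b ^ 2 by positivity)]
          exact div_le_div₀ (by positivity) (hEch n w hw q hq) (by positivity) (by gcongr)
        have e5 : (1 + y) * (2 * s * c + 2 * c) / a ^ 2 =
            (1 + y) * (2 * s * c) / a ^ 2 + (1 + y) * (2 * c) / a ^ 2 := by ring
        rw [e5]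
        exact add_le_add f6 f9
      have e6 : y * (1 + y) * (2 * s * c + 2 * c) / a ^ 2 =
          y * ((1 + y) * (2 * s * c + 2 * c) / a ^ 2) := by ring
      rw [e6]
      refine mul_le_mul_of_nonneg_left ?_ hy0.le
      refine (le_abs_self _).trans ?_
      rw [abs_mul]
      calc |h q| * |E w / a ^ 2 - E (X.sys.ins w q) / b ^ 2| ≤
            1 * ((1 + y) * (2 * s * c + 2 * c) / a ^ 2) :=
            mul_le_mul (hh q) k2 (abs_nonneg _) zero_le_one
        _ = _ := one_mul _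
    refine (sum_le_card_nsmul _ _ _ k1).trans ?_
    rw [nsmul_eq_mul]
    have k3 : ((X.sys.S w).card : ℝ) ≤ c * D n := by
      have h1 : ((X.sys.S w).card : ℝ) ≤ Z.CC * (n + 1) := by exact_mod_cast sysS_le X n w hw
      rw [← hc] at h1
      exact h1.trans (mul_le_mul_of_nonneg_left (hDn n) hc0)
    have hDp : 0 < D n := by linarith [hD1 n]
    calc ((X.sys.S w).card : ℝ) * (y * (1 + y) * (2 * s * c + 2 * c) / D n ^ 2) ≤
          (c * D n) * (y * (1 + y) * (2 * s * c + 2 * c) / D n ^ 2) :=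
          mul_le_mul_of_nonneg_right k3 (by positivity)
      _ = C2 Z * (y * (1 + y)) / D n := by
          unfold C2
          rw [← hc, ← hs]
          field_simp
      _ ≤ _ := div_le_div_of_nonneg_left (mul_nonneg (C2_nonneg Z) (by positivity))
          (by linarith) (hDM n)
  refine (sum_le_card_nsmul _ _ _ key).trans (le_of_eq ?_)
  rw [nsmul_eq_mul, mul_comm, hy]

end

end Q78.CV
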