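import Pool.Agent.Q78.CV.Bal

set_option autoImplicit false

/-! Walks with a fugacity: the joint law of a walk and its length is almost invariant under the
insertion of a pattern. -/

namespace Q78.CV

open Finset Filter Topology TH966.AK Q294.Rs
open scoped Classical

noncomputable section

variable {A : P → P → Prop} {Z : Rule A} {μ : ℝ}

/-- total mass -/
def TT (A : P → P → Prop) (R : P → P → Prop) (x : ℝ) (N : ℕ) : ℝ :=
  ∑ n ∈ range N, x ^ n * ((KR A R n).card : ℝ)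

theorem badU (G : Loc Z μ) : ∃ (M : ℕ) (θ C' : ℝ), 1 ≤ M ∧ 0 < θ ∧ θ < 1 ∧ 0 ≤ C' ∧
    ∀ (R : P → P → Prop) (n : ℕ), (((inn Z R).sys.bad M n).card : ℝ) ≤ C' * (θ * μ) ^ n := by
  obtain ⟨M0, ρ, C0, hM0, hρ0, hρ, hP⟩ := poorR G
  obtain ⟨M, θ, C', hM, hθ0, hθ1, hC', hbad⟩ := patternU (α := List P) (σ := List P × List P)
    (C0 := C0) Z.CC Z.s 0 M0 hM0 G.hμ hρ0 hρ (u := fun n => ((Kw A n).card : ℝ)) G.up
  exact ⟨M, θ, C', hM, hθ0, hθ1, hC', fun R n =>
    hbad (inn Z R).sys rfl rfl rfl (card_KR R) (hP R) n⟩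

theorem lin_expo {r : ℝ} (hr0 : 0 < r) (hr1 : r < 1) :
    ∃ B : ℝ, 0 < B ∧ ∀ n : ℕ, ((n : ℝ) + 1) * r ^ n ≤ B * ((1 + r) / 2) ^ n := by
  obtain ⟨a, ha⟩ : ∃ a, a = (1 + r) / 2 / r - 1 := ⟨_, rfl⟩
  have ha0 : 0 < a := by
    rw [ha, sub_pos, lt_div_iff₀ hr0]
    linarith
  have ha1 : 1 + a = (1 + r) / 2 / r := by rw [ha]; ring
  refine ⟨1 / min 1 a, by positivity, fun n => ?_⟩
  have h1 := one_add_mul_le_pow (a := a) (by linarith) n
  have hm : 0 < min 1 a := by positivity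
  have h2 : min 1 a * ((n : ℝ) + 1) ≤ (1 + a) ^ n := by
    refine le_trans ?_ h1
    have h3 : min 1 a ≤ 1 := min_le_left _ _
    have h4 : min 1 a ≤ a := min_le_right _ _
    have h5 : (0 : ℝ) ≤ n := Nat.cast_nonneg n
    nlinarith
  rw [ha1, div_pow, le_div_iff₀ (by positivity)] at h2
  rw [one_div, inv_mul_eq_div, le_div_iff₀ hm]
  calc ((n : ℝ) + 1) * r ^ n * min 1 a = min 1 a * ((n : ℝ) + 1) * r ^ n := by ring
    _ ≤ _ := h2

theorem expo_sum {r : ℝ} (hr0 : 0 < r) (hr1 : r < 1) :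
    ∃ B : ℝ, 0 < B ∧ ∀ m N : ℕ, ∑ n ∈ range N, (if m ≤ n then ((n : ℝ) + 1) * r ^ n else 0) ≤
      B * ((1 + r) / 2) ^ m := by
  obtain ⟨B, hB, h⟩ := lin_expo hr0 hr1
  obtain ⟨t, ht⟩ : ∃ t, t = (1 + r) / 2 := ⟨_, rfl⟩
  rw [← ht] at h ⊢
  have ht0 : 0 < t := by rw [ht]; linarith
  have ht1 : t < 1 := by rw [ht]; linarith
  have h1t : 0 < 1 - t := by linarith
  refine ⟨B / (1 - t), by positivity, fun m N => ?_⟩
  rw [← sum_filter]
  have e : (range N).filter (fun n => m ≤ n) ⊆ Finset.Ico m N := by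
    intro n hn
    rw [mem_filter, mem_range] at hn
    rw [Finset.mem_Ico]
    exact ⟨hn.2, hn.1⟩
  refine (sum_le_sum_of_subset_of_nonneg e fun n _ _ => by positivity).trans ?_
  refine (sum_le_sum fun n _ => h n).trans ?_
  rw [← mul_sum]
  have h2 := geom_sum_Ico_le_of_lt_one (m := m) (n := N) ht0.le ht1
  calc B * ∑ n ∈ Finset.Ico m N, t ^ n ≤ B * (t ^ m / (1 - t)) :=
        mul_le_mul_of_nonneg_left h2 hB.le
    _ = _ := by ring

/-- the density of the law after an insertion -/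
def rho (X : Sub Z) (y : ℝ) (w : List P) : ℝ :=
  (∑ q ∈ X.sys.B w, 1 / ((X.sys.S (X.sys.rem w q)).card : ℝ)) / y

theorem rho_nonneg (X : Sub Z) {y : ℝ} (hy : 0 < y) (w : List P) : 0 ≤ rho X y w := by
  unfold rho
  positivity

theorem rho_le (X : Sub Z) {y : ℝ} (hy : 0 < y) {n : ℕ} {w : List P} (hw : w ∈ X.K n) :
    rho X y w ≤ Z.CC * (n + 1) / y := by
  unfold rho
  refine div_le_div_of_nonneg_right ?_ hy.le
  have h1 : ∀ q ∈ X.sys.B w, 1 / ((X.sys.S (X.sys.rem w q)).card : ℝ) ≤ 1 := fun q _ =>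
    Sys.inv_le_one _
  refine (sum_le_card_nsmul _ _ _ h1).trans ?_
  rw [nsmul_eq_mul, mul_one]
  exact_mod_cast sysB_le X n w hw

/-- the density for good walks -/
theorem rho_good (X : Sub Z) {y : ℝ} (hy : 0 < y) {M n : ℕ} (hM : 1 ≤ M)
    (hn : 4 * M * Z.CC ≤ n) {w : List P} (hw : w ∈ X.K n) (hg : X.sys.good M n w) :
    |rho X y w - 1| ≤ (4 * (Z.CC : ℝ) ^ 2 * M ^ 2 / y) / n +
      (2 * M / y) * (|y * NS X (fun _ => 1) w - NB X (fun _ => 1) w| / (n + 1)) := by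
  have hC1 : (1 : ℝ) ≤ Z.CC := by exact_mod_cast Z.sys.hC
  have hMR : (1 : ℝ) ≤ M := by exact_mod_cast hM
  have hCC : 1 ≤ Z.CC := Z.sys.hC
  have hn1 : 1 ≤ n := by nlinarith
  have hnR : (1 : ℝ) ≤ n := by exact_mod_cast hn1
  have hS := Sys.big X.sys hn hg.1
  obtain ⟨S, hSd⟩ : ∃ S : ℝ, S = ((X.sys.S w).card : ℝ) := ⟨_, rfl⟩
  obtain ⟨b, hb⟩ : ∃ b : ℝ, b = ((X.sys.B w).card : ℝ) := ⟨_, rfl⟩
  obtain ⟨c, hc⟩ : ∃ c : ℝ, c = Z.CC := ⟨_, rfl⟩
  have hS4 : 4 * c < S := by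
    rw [hc, hSd]
    exact_mod_cast hS
  have hSn : (n : ℝ) < M * S := by
    rw [hSd]
    exact_mod_cast hg.1
  have hb0 : 0 ≤ b := by rw [hb]; positivity
  have hbn : b ≤ c * (n + 1) := by
    rw [hb, hc]
    exact_mod_cast sysB_le X n w hw
  rw [← hc] at hC1 ⊢
  have hS0 : 0 < S := by linarith
  have hNS : NS X (fun _ => 1) w = S := by unfold NS; rw [hSd]; simp
  have hNB : NB X (fun _ => 1) w = b := by unfold NB; rw [hb]; simp
  rw [hNS, hNB]
  -- each term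
  have h1 : ∀ q ∈ X.sys.B w, |1 / ((X.sys.S (X.sys.rem w q)).card : ℝ) - 1 / S| ≤
      2 * c / S ^ 2 := by
    intro q hq
    have hns : Z.s ≤ n := by
      by_contra hcon
      rw [B_short X (not_le.1 hcon) hw] at hq
      simp at hq
    obtain ⟨k, rfl⟩ : ∃ k, n = k + Z.s := ⟨n - Z.s, by omega⟩
    have k1 := X.sys.rem_K k w q (Nat.zero_le _) hw hq
    have k2 := X.sys.rem_S k w q (Nat.zero_le _) hw hq
    have k3 := X.sys.ins_rem k w q (Nat.zero_le _) hw hq
    have k4 := X.sys.chS1 k _ q k1 k2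
    have k5 := X.sys.chS2 k _ q k1 k2
    rw [k3] at k4 k5
    obtain ⟨S', hS'⟩ : ∃ S' : ℝ, S' = ((X.sys.S (X.sys.rem w q)).card : ℝ) := ⟨_, rfl⟩
    have k4' : S' ≤ S + c := by
      rw [hS', hSd, hc]
      exact_mod_cast k4
    have k5' : S ≤ S' + c := by
      rw [hS', hSd, hc]
      exact_mod_cast k5
    rw [← hS']
    have hS'0 : 0 < S' := by linarith
    have e : 1 / S' - 1 / S = (S - S') / (S' * S) := by
      field_simp
    rw [e, abs_div, abs_of_pos (show 0 < S' * S by positivity), div_le_div_iff₀ (by positivity)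
      (by positivity)]
    have h2 : |S - S'| ≤ c := by
      rw [abs_le]
      constructor <;> linarith
    have h3 : S ^ 2 ≤ 2 * (S' * S) := by nlinarith
    calc |S - S'| * S ^ 2 ≤ c * (2 * (S' * S)) :=
          mul_le_mul h2 h3 (by positivity) (by linarith)
      _ = 2 * c * (S' * S) := by ring
  have h2 : |rho X y w - b / (y * S)| ≤ 4 * c ^ 2 * M ^ 2 / y / n := by
    have e : rho X y w - b / (y * S) =
        (∑ q ∈ X.sys.B w, (1 / ((X.sys.S (X.sys.rem w q)).card : ℝ) - 1 / S)) / y := by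
      unfold rho
      rw [sum_sub_distrib, sum_const, nsmul_eq_mul, ← hb]
      field_simp
    rw [e, abs_div, abs_of_pos hy]
    have h3 : |∑ q ∈ X.sys.B w, (1 / ((X.sys.S (X.sys.rem w q)).card : ℝ) - 1 / S)| ≤
        b * (2 * c / S ^ 2) := by
      refine (abs_sum_le_sum_abs _ _).trans ((sum_le_card_nsmul _ _ _ h1).trans ?_)
      rw [nsmul_eq_mul, hb]
    have h4 : b * (2 * c / S ^ 2) ≤ 4 * c ^ 2 * M ^ 2 / n := by
      have h5 : 1 / S ^ 2 ≤ M ^ 2 / n ^ 2 := by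
        rw [div_le_div_iff₀ (by positivity) (by positivity), one_mul, ← mul_pow]
        exact pow_le_pow_left₀ (by linarith) hSn.le 2
      have h6 : b ≤ c * (2 * n) := hbn.trans (mul_le_mul_of_nonneg_left (by linarith) (by linarith))
      calc b * (2 * c / S ^ 2) = b * (2 * c * (1 / S ^ 2)) := by ring
        _ ≤ (c * (2 * n)) * (2 * c * (M ^ 2 / n ^ 2)) := by
            refine mul_le_mul h6 ?_ (by positivity) (by positivity)
            exact mul_le_mul_of_nonneg_left h5 (by positivity)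
        _ = _ := by
            field_simp
            ring
    calc _ ≤ (4 * c ^ 2 * M ^ 2 / n) / y := div_le_div_of_nonneg_right (h3.trans h4) hy.le
      _ = _ := by ring
  have h3 : |b / (y * S) - 1| ≤ (2 * M / y) * (|y * S - b| / (n + 1)) := by
    have e : b / (y * S) - 1 = -((y * S - b) / (y * S)) := by
      field_simp
      ring
    rw [e, abs_neg, abs_div, abs_of_pos (show 0 < y * S by positivity)]
    have h4 : 1 / (y * S) ≤ 2 * M / (y * (n + 1)) := by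
      rw [div_le_div_iff₀ (by positivity) (by positivity), one_mul]
      have h5 : (n : ℝ) + 1 ≤ 2 * M * S := by linarith
      calc y * ((n : ℝ) + 1) ≤ y * (2 * M * S) := mul_le_mul_of_nonneg_left h5 hy.le
        _ = 2 * M * (y * S) := by ring
    calc |y * S - b| / (y * S) = |y * S - b| * (1 / (y * S)) := by ring
      _ ≤ |y * S - b| * (2 * M / (y * (n + 1))) := mul_le_mul_of_nonneg_left h4 (abs_nonneg _)
      _ = _ := by field_simp
  have e : rho X y w - 1 = (rho X y w - b / (y * S)) + (b / (y * S) - 1) := by ring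
  rw [e]
  exact (abs_add_le _ _).trans (add_le_add h2 h3)

/-- the sum with the density -/
theorem insert_sum (X : Sub Z) {x : ℝ} (hx : 0 < x) (N : ℕ) (hN : ∀ n, N ≤ n → X.K n = ∅)
    (F : ℕ → List P → ℝ) :
    ∑ n ∈ range N, x ^ n * ∑ w ∈ X.K n, ∑ q ∈ X.sys.S w,
        F (n + Z.s) (X.sys.ins w q) / ((X.sys.S w).card : ℝ) =
      ∑ n ∈ range N, x ^ n * ∑ w ∈ X.K n, F n w * rho X (x ^ Z.s) w := by
  have h := dcT X x N hN (fun n w q => F n w / ((X.sys.S (X.sys.rem w q)).card : ℝ))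
  have hy : (0 : ℝ) < x ^ Z.s := by positivity
  have e1 : ∑ n ∈ range N, x ^ n * ∑ w ∈ X.K n, F n w * rho X (x ^ Z.s) w =
      (∑ n ∈ range N, x ^ n * ∑ w ∈ X.K n, ∑ q ∈ X.sys.B w,
        F n w / ((X.sys.S (X.sys.rem w q)).card : ℝ)) / x ^ Z.s := by
    rw [sum_div]
    refine sum_congr rfl fun n _ => ?_
    rw [mul_div_assoc, sum_div]
    congr 1
    refine sum_congr rfl fun w _ => ?_
    unfold rho
    rw [mul_div_assoc', mul_sum]
    congr 1
    exact sum_congr rfl fun q _ => by ring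
  rw [e1, h, mul_div_cancel_left₀ _ hy.ne']
  refine sum_congr rfl fun n _ => ?_
  congr 1
  refine sum_congr rfl fun w hw => sum_congr rfl fun q hq => ?_
  rw [X.sys.rem_ins n w q hw hq]

end

end Q78.CV
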