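import Pool.Agent.Q78.CV.Cpl

set_option autoImplicit false

/-! The main estimate for the joint law of a walk and its length. -/

namespace Q78.CV

open Finset Filter Topology TH966.AK Q294.Rs
open scoped Classical

noncomputable section

variable {A : P → P → Prop} {Z : Rule A} {μ : ℝ}

theorem cs (K : ℕ → Finset (List P)) {x : ℝ} (hx : 0 < x) (N : ℕ) (g : ℕ → List P → ℝ) :
    (∑ n ∈ range N, x ^ n * ∑ w ∈ K n, g n w) ^ 2 ≤
      (∑ n ∈ range N, x ^ n * ((K n).card : ℝ)) *
      ∑ n ∈ range N, x ^ n * ∑ w ∈ K n, g n w ^ 2 := by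
  have e : ∀ h : ℕ → List P → ℝ, ∑ n ∈ range N, x ^ n * ∑ w ∈ K n, h n w =
      ∑ p ∈ (range N).sigma K, x ^ p.1 * h p.1 p.2 := by
    intro h
    rw [Finset.sum_sigma]
    exact sum_congr rfl fun n _ => by rw [mul_sum]
  have e1 : ∑ n ∈ range N, x ^ n * ((K n).card : ℝ) = ∑ p ∈ (range N).sigma K, x ^ p.1 := by
    rw [Finset.sum_sigma]
    refine sum_congr rfl fun n _ => ?_
    show x ^ n * ((K n).card : ℝ) = ∑ s ∈ K n, x ^ n
    rw [sum_const, nsmul_eq_mul, mul_comm]
  rw [e, e, e1]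
  have h := Finset.sum_mul_sq_le_sq_mul_sq ((range N).sigma K) (fun p => √(x ^ p.1))
    (fun p => √(x ^ p.1) * g p.1 p.2)
  have s0 : ∀ n : ℕ, √(x ^ n) * √(x ^ n) = x ^ n := fun n => Real.mul_self_sqrt (by positivity)
  have s1 : ∀ n : ℕ, √(x ^ n) ^ 2 = x ^ n := fun n => Real.sq_sqrt (by positivity)
  simp only [mul_pow, s1, ← mul_assoc, s0] at h
  exact h

/-- the mean of the absolute value -/
theorem bal_abs (X : Sub Z) {x : ℝ} (hx : 0 < x) {h : List P × List P → ℝ} (hh : ∀ q, |h q| ≤ 1)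
    (N : ℕ) (hN : ∀ n, N ≤ n → X.K n = ∅) (M : ℕ) (hM : 1 ≤ M) :
    ∑ n ∈ range N, x ^ n * ∑ w ∈ X.K n,
      |(x ^ Z.s * NS X h w - NB X h w) / ((max (n + 1) M : ℕ) : ℝ)| ≤
      √(C2 Z * (x ^ Z.s * (1 + x ^ Z.s)) / M) *
        ∑ n ∈ range N, x ^ n * ((X.K n).card : ℝ) := by
  have h1 := cs X.K hx N (fun n w =>
    |(x ^ Z.s * NS X h w - NB X h w) / ((max (n + 1) M : ℕ) : ℝ)|)
  simp only [sq_abs] at h1
  have h2 := bal X hx hh N hN M hM
  obtain ⟨T, hT⟩ : ∃ T, T = ∑ n ∈ range N, x ^ n * ((X.K n).card : ℝ) := ⟨_, rfl⟩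
  rw [← hT] at h1 h2 ⊢
  have hT0 : 0 ≤ T := by rw [hT]; exact sum_nonneg fun _ _ => by positivity
  have hc : 0 ≤ C2 Z * (x ^ Z.s * (1 + x ^ Z.s)) / M := by
    have := C2_nonneg Z
    positivity
  refine abs_le_of_sq_le_sq' ?_ (by positivity) |>.2
  rw [mul_pow, Real.sq_sqrt hc]
  calc _ ≤ T * _ := h1
    _ ≤ T * (C2 Z * (x ^ Z.s * (1 + x ^ Z.s)) / M * T) := mul_le_mul_of_nonneg_left h2 hT0
    _ = _ := by ring

/-- **the joint law of the walk and its length is almost invariant under an insertion** -/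
theorem couple (G : Loc Z μ) {x0 : ℝ} (hx0 : 0 < x0) : ∃ C κ r : ℝ, 0 < C ∧ 1 < κ ∧ 0 < r ∧
    r < 1 ∧ ∀ (R : P → P → Prop) (N : ℕ), (∀ n, N ≤ n → KR A R n = ∅) → ∀ x, x0 ≤ x →
    x * μ ≤ κ → ∀ m : ℕ, 1 ≤ m → ∀ (ε : ℝ) (F : ℕ → List P → ℝ), 0 ≤ ε → (∀ n w, |F n w| ≤ 1) →
      (∀ n w, n < m → F n w = 0) →
      (∀ n, ∀ w ∈ KR A R n, ∀ q ∈ (inn Z R).sys.S w,
        |F (n + Z.s) w - F (n + Z.s) ((inn Z R).sys.ins w q)| ≤ ε) →
      |∑ n ∈ range N, x ^ n * ∑ w ∈ KR A R n, F (n + Z.s) w -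
        ∑ n ∈ range N, x ^ n * ∑ w ∈ KR A R n, F n w| ≤
          (ε + C / √m) * TT A R x N + C * r ^ m := by
  obtain ⟨M, θ, C', hM, hθ0, hθ1, hC', hbad⟩ := badU G
  have hμ0 : 0 < μ := by linarith [G.hμ]
  obtain ⟨t, ht⟩ : ∃ t, t = √θ := ⟨_, rfl⟩
  have ht0 : 0 < t := by rw [ht]; exact Real.sqrt_pos.2 hθ0
  have htt : t * t = θ := by rw [ht]; exact Real.mul_self_sqrt hθ0.le
  have ht1 : t < 1 := by
    by_contra hc
    push Not at hc
    nlinarith
  obtain ⟨B, hB, hsum⟩ := expo_sum ht0 ht1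
  obtain ⟨r, hr⟩ : ∃ r, r = (1 + t) / 2 := ⟨_, rfl⟩
  rw [← hr] at hsum
  have hr0 : 0 < r := by rw [hr]; linarith
  have hr1 : r < 1 := by rw [hr]; linarith
  obtain ⟨c, hc⟩ : ∃ c : ℝ, c = Z.CC := ⟨_, rfl⟩
  have hc1 : 1 ≤ c := by rw [hc]; exact_mod_cast Z.sys.hC
  obtain ⟨y0, hy0⟩ : ∃ y0 : ℝ, y0 = x0 ^ Z.s := ⟨_, rfl⟩
  have hy00 : 0 < y0 := by rw [hy0]; positivity
  obtain ⟨Y1, hY1⟩ : ∃ Y1 : ℝ, Y1 = (1 / t) ^ Z.s := ⟨_, rfl⟩
  have hY10 : 0 < Y1 := by rw [hY1]; positivity
  obtain ⟨m0, hm0⟩ : ∃ m0 : ℕ, m0 = 4 * M * Z.CC + Z.s + 1 := ⟨_, rfl⟩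
  obtain ⟨a1, ha1⟩ : ∃ a1 : ℝ, a1 = 4 * c ^ 2 * M ^ 2 / y0 := ⟨_, rfl⟩
  obtain ⟨a3, ha3⟩ : ∃ a3 : ℝ, a3 = 2 * M * √(C2 Z * ((1 + Y1) / y0)) := ⟨_, rfl⟩
  obtain ⟨b1, hb1⟩ : ∃ b1 : ℝ, b1 = (1 + c / y0) * (C' * B) := ⟨_, rfl⟩
  obtain ⟨b2, hb2⟩ : ∃ b2 : ℝ, b2 = C' * B * (1 / r ^ Z.s) := ⟨_, rfl⟩
  have ha10 : 0 ≤ a1 := by rw [ha1]; positivity
  have ha30 : 0 ≤ a3 := by rw [ha3]; positivity
  have hb10 : 0 ≤ b1 := by rw [hb1]; positivity
  have hb20 : 0 ≤ b2 := by rw [hb2]; positivity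
  refine ⟨2 * √m0 + a1 + a3 + b1 + b2 + 1, 1 / t, r, by positivity,
    by rw [lt_div_iff₀ ht0]; linarith, hr0, hr1, ?_⟩
  intro R N hN x hx0x hxκ m hm ε F hε hF1 hF0 hFl
  have hx : 0 < x := hx0.trans_le hx0x
  obtain ⟨T, hT⟩ : ∃ T, T = TT A R x N := ⟨_, rfl⟩
  have hT0 : 0 ≤ T := by rw [hT]; exact sum_nonneg fun _ _ => by positivity
  have hmR : (1 : ℝ) ≤ m := by exact_mod_cast hm
  have hsm : 0 < √(m : ℝ) := Real.sqrt_pos.2 (by linarith)
  rw [← hT]
  obtain ⟨K, hK⟩ : ∃ K, K = KR A R := ⟨_, rfl⟩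
  obtain ⟨X, hX⟩ : ∃ X, X = inn Z R := ⟨_, rfl⟩
  have hXK : X.K = K := by rw [hX, hK]; rfl
  rw [← hX] at hFl
  rw [← hK] at hN hFl ⊢
  have hTK : T = ∑ n ∈ range N, x ^ n * ((X.K n).card : ℝ) := by rw [hT, hXK, hK]; rfl
  -- small m
  rcases Nat.lt_or_ge m m0 with hsmall | hbig
  · have h1 : ∀ f : ℕ → List P → ℝ, (∀ n w, |f n w| ≤ 1) →
        |∑ n ∈ range N, x ^ n * ∑ w ∈ K n, f n w| ≤ T := by
      intro f hf
      refine (abs_sum_le_sum_abs _ _).trans ?_
      rw [hTK, hXK]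
      refine sum_le_sum fun n _ => ?_
      rw [abs_mul, abs_of_pos (show 0 < x ^ n by positivity)]
      refine mul_le_mul_of_nonneg_left ?_ (by positivity)
      refine (abs_sum_le_sum_abs _ _).trans ((sum_le_sum fun w _ => hf n w).trans ?_)
      simp
    have h2 := h1 (fun n w => F (n + Z.s) w) (fun n w => hF1 _ _)
    have h3 := h1 F hF1
    refine (abs_sub _ _).trans ((add_le_add h2 h3).trans ?_)
    have h4 : 2 ≤ (2 * √m0 + a1 + a3 + b1 + b2 + 1) / √m := by
      rw [le_div_iff₀ hsm]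
      have h5 : √(m : ℝ) ≤ √m0 := Real.sqrt_le_sqrt (by exact_mod_cast hsmall.le)
      linarith
    have h6 : 2 * T ≤ (2 * √m0 + a1 + a3 + b1 + b2 + 1) / √m * T :=
      mul_le_mul_of_nonneg_right h4 hT0
    have h7 : 0 ≤ ε * T := mul_nonneg hε hT0
    have h8 : 0 ≤ (2 * √m0 + a1 + a3 + b1 + b2 + 1) * r ^ m := by positivity
    have e : (ε + (2 * √m0 + a1 + a3 + b1 + b2 + 1) / √m) * T =
        ε * T + (2 * √m0 + a1 + a3 + b1 + b2 + 1) / √m * T := by ring
    rw [e]
    linarith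
  -- large m
  have hms : Z.s ≤ m := by omega
  obtain ⟨y, hy⟩ : ∃ y, y = x ^ Z.s := ⟨_, rfl⟩
  have hyp : 0 < y := by rw [hy]; positivity
  have hyy0 : y0 ≤ y := by rw [hy, hy0]; exact pow_le_pow_left₀ hx0.le hx0x _
  have hyY1 : y ≤ Y1 := by
    rw [hy, hY1]
    refine pow_le_pow_left₀ hx.le ?_ _
    have := G.hμ
    nlinarith
  -- bad walks
  have hbadx : ∀ n : ℕ, x ^ n * ((X.sys.bad M n).card : ℝ) ≤ C' * t ^ n := by
    intro n
    have h1 := hbad R n
    rw [← hX] at h1
    have h2 : θ * μ * x ≤ t := by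
      have h3 : x * μ * t ≤ 1 := by rwa [le_div_iff₀ ht0] at hxκ
      rw [← htt]
      nlinarith
    calc x ^ n * ((X.sys.bad M n).card : ℝ) ≤ x ^ n * (C' * (θ * μ) ^ n) :=
          mul_le_mul_of_nonneg_left h1 (by positivity)
      _ = C' * (θ * μ * x) ^ n := by rw [mul_pow (θ * μ)]; ring
      _ ≤ C' * t ^ n := mul_le_mul_of_nonneg_left (pow_le_pow_left₀ (by positivity) h2 n) hC'
  obtain ⟨A', hA'⟩ : ∃ A', A' = ∑ n ∈ range N, x ^ n * ∑ w ∈ K n, ∑ q ∈ X.sys.S w,
        F (n + Z.s) (X.sys.ins w q) / ((X.sys.S w).card : ℝ) := ⟨_, rfl⟩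
  -- first step
  have step1 : |∑ n ∈ range N, x ^ n * ∑ w ∈ K n, F (n + Z.s) w - A'| ≤ ε * T + b2 * r ^ m := by
    rw [hA', ← sum_sub_distrib]
    refine (abs_sum_le_sum_abs _ _).trans ?_
    have h1 : ∀ n ∈ range N, |x ^ n * ∑ w ∈ K n, F (n + Z.s) w - x ^ n * ∑ w ∈ K n,
        ∑ q ∈ X.sys.S w, F (n + Z.s) (X.sys.ins w q) / ((X.sys.S w).card : ℝ)| ≤
        ε * (x ^ n * ((K n).card : ℝ)) +
          C' * (if m - Z.s ≤ n then ((n : ℝ) + 1) * t ^ n else 0) := by
      intro n _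
      rw [← mul_sub, ← sum_sub_distrib, abs_mul, abs_of_pos (show 0 < x ^ n by positivity)]
      have h2 : ∀ w ∈ K n, |F (n + Z.s) w - ∑ q ∈ X.sys.S w, F (n + Z.s) (X.sys.ins w q) /
          ((X.sys.S w).card : ℝ)| ≤ ε +
          (if w ∈ X.sys.bad M n then (if m - Z.s ≤ n then (1 : ℝ) else 0) else 0) := by
        intro w hw
        rcases Nat.eq_zero_or_pos (X.sys.S w).card with h0 | h0
        · have hS : X.sys.S w = ∅ := Finset.card_eq_zero.1 h0
          rw [hS, sum_empty, sub_zero]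
          have hb : w ∈ X.sys.bad M n := by
            unfold Sys.bad
            rw [mem_filter]
            refine ⟨by rw [← hXK] at hw; exact hw, Or.inl ?_⟩
            rw [h0, mul_zero]
            exact Nat.zero_le _
          rw [if_pos hb]
          by_cases hmn : m - Z.s ≤ n
          · rw [if_pos hmn]
            linarith [hF1 (n + Z.s) w]
          · rw [if_neg hmn, hF0 _ _ (by omega), abs_zero]
            linarith
        · have h0' : (0 : ℝ) < ((X.sys.S w).card : ℝ) := by exact_mod_cast h0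
          have e : F (n + Z.s) w - ∑ q ∈ X.sys.S w, F (n + Z.s) (X.sys.ins w q) /
              ((X.sys.S w).card : ℝ) = ∑ q ∈ X.sys.S w,
              (F (n + Z.s) w - F (n + Z.s) (X.sys.ins w q)) / ((X.sys.S w).card : ℝ) := by
            rw [← sum_div, ← sum_div, sum_sub_distrib, sum_const, nsmul_eq_mul]
            field_simp
          rw [e]
          refine (abs_sum_le_sum_abs _ _).trans ?_
          have h3 : ∀ q ∈ X.sys.S w, |(F (n + Z.s) w - F (n + Z.s) (X.sys.ins w q)) /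
              ((X.sys.S w).card : ℝ)| ≤ ε / ((X.sys.S w).card : ℝ) := by
            intro q hq
            rw [abs_div, abs_of_pos h0']
            exact div_le_div_of_nonneg_right (hFl n w hw q hq) h0'.le
          refine (sum_le_card_nsmul _ _ _ h3).trans ?_
          rw [nsmul_eq_mul, mul_div_cancel₀ _ h0'.ne']
          have : (0 : ℝ) ≤ (if w ∈ X.sys.bad M n then (if m - Z.s ≤ n then (1 : ℝ) else 0)
            else 0) := by split_ifs <;> norm_num
          linarith
      have h4 : |∑ w ∈ K n, (F (n + Z.s) w - ∑ q ∈ X.sys.S w, F (n + Z.s) (X.sys.ins w q) /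
          ((X.sys.S w).card : ℝ))| ≤ ε * ((K n).card : ℝ) +
          (if m - Z.s ≤ n then ((X.sys.bad M n).card : ℝ) else 0) := by
        refine (abs_sum_le_sum_abs _ _).trans ((sum_le_sum h2).trans ?_)
        rw [sum_add_distrib, sum_const, nsmul_eq_mul, mul_comm]
        refine add_le_add le_rfl ?_
        rw [← sum_filter, sum_const, nsmul_eq_mul]
        have h5 : (((K n).filter (fun w => w ∈ X.sys.bad M n)).card : ℝ) ≤
            (X.sys.bad M n).card := by
          exact_mod_cast card_le_card fun w hw => (mem_filter.1 hw).2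
        by_cases hmn : m - Z.s ≤ n
        · rw [if_pos hmn, if_pos hmn, mul_one]
          exact h5
        · rw [if_neg hmn, if_neg hmn, mul_zero]
      refine (mul_le_mul_of_nonneg_left h4 (by positivity)).trans ?_
      rw [mul_add]
      refine add_le_add (le_of_eq (by ring)) ?_
      by_cases hmn : m - Z.s ≤ n
      · rw [if_pos hmn, if_pos hmn]
        refine (hbadx n).trans ?_
        have : t ^ n ≤ ((n : ℝ) + 1) * t ^ n := by
          have h6 : (0 : ℝ) ≤ (n : ℝ) * t ^ n := by positivity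
          linarith
        exact mul_le_mul_of_nonneg_left this hC'
      · rw [if_neg hmn, if_neg hmn, mul_zero, mul_zero]
    refine (sum_le_sum h1).trans ?_
    rw [sum_add_distrib, ← mul_sum, ← mul_sum]
    have h7 := hsum (m - Z.s) N
    have e : ∑ n ∈ range N, x ^ n * ((K n).card : ℝ) = T := by rw [hTK, hXK]
    rw [e]
    refine add_le_add le_rfl ?_
    refine (mul_le_mul_of_nonneg_left h7 hC').trans (le_of_eq ?_)
    rw [hb2]
    have e2 : r ^ m = r ^ (m - Z.s) * r ^ Z.s := by rw [← pow_add]; congr 1; omega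
    rw [e2]
    field_simp
  -- second step
  have step2 : |A' - ∑ n ∈ range N, x ^ n * ∑ w ∈ K n, F n w| ≤
      (a1 + a3) / √m * T + b1 * r ^ m := by
    have e1 : A' = ∑ n ∈ range N, x ^ n * ∑ w ∈ K n, F n w * rho X y w := by
      rw [hA', hy, ← hXK]
      refine insert_sum X hx N ?_ F
      rw [hXK]
      exact hN
    rw [e1, ← sum_sub_distrib]
    refine (abs_sum_le_sum_abs _ _).trans ?_
    have h1 : ∀ n ∈ range N, |x ^ n * ∑ w ∈ K n, F n w * rho X y w - x ^ n * ∑ w ∈ K n, F n w| ≤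
        a1 / m * (x ^ n * ((K n).card : ℝ)) +
        2 * M / y * (x ^ n * ∑ w ∈ K n, |(y * NS X (fun _ => 1) w - NB X (fun _ => 1) w) /
          ((max (n + 1) m : ℕ) : ℝ)|) +
        (1 + c / y0) * (C' * (if m ≤ n then ((n : ℝ) + 1) * t ^ n else 0)) := by
      intro n _
      rw [← mul_sub, ← sum_sub_distrib, abs_mul, abs_of_pos (show 0 < x ^ n by positivity)]
      by_cases hmn : m ≤ n
      swap
      · have h2 : ∑ w ∈ K n, (F n w * rho X y w - F n w) = 0 :=
          sum_eq_zero fun w _ => by rw [hF0 n w (by omega)]; ring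
        rw [h2, abs_zero, mul_zero, if_neg hmn]
        have h3 : 0 ≤ ∑ w ∈ K n, |(y * NS X (fun _ => 1) w - NB X (fun _ => 1) w) /
          ((max (n + 1) m : ℕ) : ℝ)| := sum_nonneg fun _ _ => abs_nonneg _
        rw [mul_zero, mul_zero, add_zero]
        have h4 : 0 ≤ a1 / m := by positivity
        positivity
      · rw [if_pos hmn]
        have hmnR : (m : ℝ) ≤ n := by exact_mod_cast hmn
        have hn0 : (0 : ℝ) < n := by linarith
        have hmax : ((max (n + 1) m : ℕ) : ℝ) = (n : ℝ) + 1 := by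
          rw [max_eq_left (by omega)]
          push_cast
          ring
        have h2 : ∀ w ∈ K n, |F n w * rho X y w - F n w| ≤
            a1 / m + 2 * M / y * |(y * NS X (fun _ => 1) w - NB X (fun _ => 1) w) /
              ((max (n + 1) m : ℕ) : ℝ)| +
            (if w ∈ X.sys.bad M n then (1 + c / y0) * ((n : ℝ) + 1) else 0) := by
          intro w hw
          have hwX : w ∈ X.K n := by rw [hXK]; exact hw
          have e2 : F n w * rho X y w - F n w = F n w * (rho X y w - 1) := by ring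
          rw [e2, abs_mul]
          have h3 : |F n w| * |rho X y w - 1| ≤ |rho X y w - 1| := by
            have := mul_le_mul_of_nonneg_right (hF1 n w) (abs_nonneg (rho X y w - 1))
            linarith
          refine h3.trans ?_
          by_cases hbd : w ∈ X.sys.bad M n
          · rw [if_pos hbd]
            have h4 : |rho X y w - 1| ≤ (1 + c / y0) * ((n : ℝ) + 1) := by
              have h5 := rho_nonneg X hyp w
              have h6 := rho_le X hyp hwX
              rw [← hc] at h6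
              have h7 : c * ((n : ℝ) + 1) / y ≤ c / y0 * (n + 1) := by
                rw [div_mul_eq_mul_div]
                exact div_le_div_of_nonneg_left (by positivity) hy00 hyy0
              rw [abs_le]
              constructor
              · have : 0 ≤ (1 + c / y0) * ((n : ℝ) + 1) - 1 := by
                  have h8 : 0 ≤ c / y0 := by positivity
                  nlinarith
                linarith
              · linarith
            have h9 : 0 ≤ a1 / m := by positivity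
            have h10 : 0 ≤ 2 * M / y * |(y * NS X (fun _ => 1) w - NB X (fun _ => 1) w) /
              ((max (n + 1) m : ℕ) : ℝ)| := by positivity
            linarith
          · rw [if_neg hbd, add_zero]
            have hg : X.sys.good M n w := by
              by_contra hcon
              rw [Sys.not_good] at hcon
              refine hbd ?_
              unfold Sys.bad
              rw [mem_filter]
              exact ⟨hwX, hcon⟩
            have h4 := rho_good X hyp hM (by omega) hwX hg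
            rw [← hc] at h4
            refine h4.trans (add_le_add ?_ ?_)
            · rw [ha1]
              refine div_le_div₀ (by positivity) ?_ (by positivity) hmnR
              exact div_le_div_of_nonneg_left (by positivity) hy00 hyy0
            · rw [hmax, abs_div, abs_of_pos (show (0 : ℝ) < (n : ℝ) + 1 by positivity)]
        have h5 : |∑ w ∈ K n, (F n w * rho X y w - F n w)| ≤
            a1 / m * ((K n).card : ℝ) + 2 * M / y * ∑ w ∈ K n,
              |(y * NS X (fun _ => 1) w - NB X (fun _ => 1) w) / ((max (n + 1) m : ℕ) : ℝ)| +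
            (1 + c / y0) * ((n : ℝ) + 1) * ((X.sys.bad M n).card : ℝ) := by
          refine (abs_sum_le_sum_abs _ _).trans ((sum_le_sum h2).trans ?_)
          rw [sum_add_distrib, sum_add_distrib, sum_const, nsmul_eq_mul, mul_comm, ← mul_sum]
          refine add_le_add le_rfl ?_
          rw [← sum_filter, sum_const, nsmul_eq_mul, mul_comm]
          refine mul_le_mul_of_nonneg_left ?_ (by positivity)
          exact_mod_cast card_le_card fun w hw => (mem_filter.1 hw).2
        refine (mul_le_mul_of_nonneg_left h5 (by positivity)).trans ?_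
        rw [mul_add, mul_add]
        refine add_le_add (add_le_add (le_of_eq (by ring)) (le_of_eq (by ring))) ?_
        have h6 := mul_le_mul_of_nonneg_left (hbadx n)
          (show 0 ≤ (1 + c / y0) * ((n : ℝ) + 1) by positivity)
        calc x ^ n * ((1 + c / y0) * ((n : ℝ) + 1) * ((X.sys.bad M n).card : ℝ)) =
              (1 + c / y0) * ((n : ℝ) + 1) * (x ^ n * ((X.sys.bad M n).card : ℝ)) := by ring
          _ ≤ _ := h6
          _ = _ := by ring
    refine (sum_le_sum h1).trans ?_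
    rw [sum_add_distrib, sum_add_distrib, ← mul_sum, ← mul_sum, ← mul_sum, ← mul_sum]
    have e : ∑ n ∈ range N, x ^ n * ((K n).card : ℝ) = T := by rw [hTK, hXK]
    rw [e]
    have h2 := bal_abs X hx (h := fun _ => 1) (fun _ => by simp) N (by rw [hXK]; exact hN) m hm
    rw [← hTK, ← hy, hXK] at h2
    have h3 := hsum m N
    have q1 : a1 / m * T ≤ a1 / √m * T := by
      refine mul_le_mul_of_nonneg_right (div_le_div_of_nonneg_left ha10 hsm ?_) hT0
      rw [Real.sqrt_le_left (by linarith)]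
      nlinarith
    have q2 : 2 * M / y * ∑ n ∈ range N, x ^ n * ∑ w ∈ K n,
        |(y * NS X (fun _ => 1) w - NB X (fun _ => 1) w) / ((max (n + 1) m : ℕ) : ℝ)| ≤
        a3 / √m * T := by
      refine (mul_le_mul_of_nonneg_left h2 (by positivity)).trans ?_
      rw [← mul_assoc]
      refine mul_le_mul_of_nonneg_right ?_ hT0
      have e4 : 2 * M / y * √(C2 Z * (y * (1 + y)) / m) =
          2 * M * √(C2 Z * ((1 + y) / y)) / √m := by
        have e5 : C2 Z * (y * (1 + y)) / m = y ^ 2 * (C2 Z * ((1 + y) / y)) / m := by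
          field_simp
        have h20 := C2_nonneg Z
        rw [e5, Real.sqrt_div (by positivity), Real.sqrt_mul (by positivity),
          Real.sqrt_sq hyp.le]
        field_simp
      rw [e4, ha3]
      refine div_le_div_of_nonneg_right (mul_le_mul_of_nonneg_left (Real.sqrt_le_sqrt ?_)
        (by positivity)) hsm.le
      refine mul_le_mul_of_nonneg_left ?_ (C2_nonneg Z)
      exact div_le_div₀ (by positivity) (by linarith) hy00 hyy0
    have q3 : (1 + c / y0) * (C' * ∑ n ∈ range N,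
        (if m ≤ n then ((n : ℝ) + 1) * t ^ n else 0)) ≤ b1 * r ^ m := by
      rw [hb1]
      calc (1 + c / y0) * (C' * ∑ n ∈ range N,
            (if m ≤ n then ((n : ℝ) + 1) * t ^ n else 0)) ≤
            (1 + c / y0) * (C' * (B * r ^ m)) := by
              refine mul_le_mul_of_nonneg_left ?_ (by positivity)
              exact mul_le_mul_of_nonneg_left h3 hC'
        _ = _ := by ring
    have e6 : (a1 + a3) / √m * T = a1 / √m * T + a3 / √m * T := by ring
    rw [e6]
    exact add_le_add (add_le_add q1 q2) q3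
  have hfin := (abs_sub_le (∑ n ∈ range N, x ^ n * ∑ w ∈ K n, F (n + Z.s) w) A'
    (∑ n ∈ range N, x ^ n * ∑ w ∈ K n, F n w)).trans (add_le_add step1 step2)
  refine hfin.trans ?_
  have k1 : (a1 + a3) / √m * T ≤ (2 * √m0 + a1 + a3 + b1 + b2 + 1) / √m * T := by
    refine mul_le_mul_of_nonneg_right (div_le_div_of_nonneg_right ?_ hsm.le) hT0
    have : 0 ≤ √(m0 : ℝ) := Real.sqrt_nonneg _
    linarith
  have k2 : (b1 + b2) * r ^ m ≤ (2 * √m0 + a1 + a3 + b1 + b2 + 1) * r ^ m := by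
    refine mul_le_mul_of_nonneg_right ?_ (by positivity)
    have : 0 ≤ √(m0 : ℝ) := Real.sqrt_nonneg _
    linarith
  have e7 : (ε + (2 * √m0 + a1 + a3 + b1 + b2 + 1) / √m) * T =
      ε * T + (2 * √m0 + a1 + a3 + b1 + b2 + 1) / √m * T := by ring
  rw [e7]
  linarith

end

end Q78.CV
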