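import Pool.Agent.Q78.CV.Cpl2
import Pool.Agent.Q78.UR.HexDom

set_option autoImplicit false

/-! Detours in walks on the honeycomb lattice. -/

namespace Q78.CV

open Finset Filter Topology TH966.AK Q294.Rs
open scoped Classical

noncomputable section

theorem chain_box' {A : P → P → Prop} (hA : ∀ p q, A p q → |p.1 - q.1| ≤ 1 ∧ |p.2 - q.2| ≤ 1) :
    ∀ (l : List P) (x : P) (m : ℕ), (x :: l).IsChain A →
    (x :: l).length ≤ m + 1 → ∀ y ∈ x :: l, |x.1 - y.1| ≤ m ∧ |x.2 - y.2| ≤ m := by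
  intro l
  induction l with
  | nil =>
    intro x m _ _ y hy
    simp only [List.mem_singleton] at hy
    subst hy
    simp
  | cons z l ih =>
    intro x m hc hl y hy
    rw [List.isChain_cons_cons] at hc
    rw [List.mem_cons] at hy
    rcases hy with rfl | hy
    · simp
    · obtain ⟨m', rfl⟩ : ∃ m', m = m' + 1 := by
        simp only [List.length_cons] at hl
        exact ⟨m - 1, by omega⟩
      have h1 := ih z m' hc.2 (by simp only [List.length_cons] at hl ⊢; omega) y hy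
      have h2 := hA x z hc.1
      rw [abs_le, abs_le] at *
      push_cast
      omega

/-- the rule of the detours -/
def det (A : P → P → Prop) (hA : ∀ p q, A p q → |p.1 - q.1| ≤ 1 ∧ |p.2 - q.2| ≤ 1) (k s : ℕ) :
    Rule A where
  T U U' := Pair A U U' ∧ U.length = k ∧ U'.length = k + s
  ρ := 2 * (k + s)
  k := k
  s := s
  step := hA
  pair := fun _ _ h => h.1
  len := fun _ _ h => h.2
  loc := by
    rintro U U' ⟨h, h1, h2⟩
    obtain ⟨⟨p, r, X, X', e1, e2, -⟩, -, -, c1, c2⟩ := h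
    have key : ∀ x ∈ U ++ U', |p.1 - x.1| ≤ (k + s : ℕ) ∧ |p.2 - x.2| ≤ (k + s : ℕ) := by
      intro x hx
      rw [List.mem_append] at hx
      rcases hx with hx | hx
      · rw [e1] at hx c1 h1
        exact chain_box' hA _ p (k + s) c1 (by omega) x hx
      · rw [e2] at hx c2 h2
        exact chain_box' hA _ p (k + s) c2 (by omega) x hx
    intro x hx y hy
    have a1 := key x hx
    have a2 := key y hy
    rw [abs_le, abs_le] at *
    push_cast at *
    omega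

theorem hexA_step (p q : P) (h : Hex.A p q) : |p.1 - q.1| ≤ 1 ∧ |p.2 - q.2| ≤ 1 :=
  Hex.rule.step p q h

/-- the rule of the detours for the honeycomb lattice -/
def hdet (k s : ℕ) : Rule Hex.A := det Hex.A hexA_step k s

/-- membership in the class of walks -/
theorem mem_KR_iff {τ : ℤ × ℤ ≃ ℤ × ℤ} {a : ℤ × ℤ} (hτa : τ a = 0)
    (hτ : ∀ p q, AdjH (τ p) (τ q) ↔ AdjH p q) (Pr : P → Prop) (b : ℤ × ℤ) (m : ℕ)
    (l : List (ℤ × ℤ)) :
    ((l.head? = some a ∧ l.getLast? = some b ∧ l.Nodup ∧ l.IsChain AdjH ∧ ∀ p ∈ l, Pr p) ∧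
      l.length = m + 1) ↔
      l.map τ ∈ KR Hex.A (fun e y => e = τ b ∧ Pr (τ.symm y)) m := by
  have h := Q78.UR.HexDom.mem_iff hτa hτ {p | Pr p} b m l
  have e : Pool.Agent.W832.HR.Nbr = AdjH := by
    funext p q
    exact propext (Q78.UR.HexDom.nbr_iff p q)
  unfold Pool.Agent.W832.HR.Traj at h
  rw [Set.mem_ofPred_eq, e] at h
  exact h

theorem pair_map {τ : ℤ × ℤ ≃ ℤ × ℤ} (hτ : ∀ p q, AdjH (τ p) (τ q) ↔ AdjH p q)
    (U U' : List P) : Pair Hex.A (U.map τ) (U'.map τ) ↔ Pair AdjH U U' := by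
  rw [← adjH_eq]
  have hch : ∀ l : List P, (l.map τ).IsChain AdjH ↔ l.IsChain AdjH := by
    intro l
    rw [List.isChain_map]
    have : (fun a b => AdjH (τ a) (τ b)) = AdjH := by
      funext x y
      rw [hτ]
    rw [this]
  have hm : ∀ (x : P) (l : List P), τ x ∈ l.map τ ↔ x ∈ l := fun x l =>
    List.mem_map_of_injective τ.injective
  unfold Pair
  rw [hch, hch, List.nodup_map_iff τ.injective, List.nodup_map_iff τ.injective]
  refine and_congr_left fun _ => ?_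
  constructor
  · rintro ⟨p, r, X, X', h1, h2, h3, h4⟩
    have e1 := congrArg (List.map τ.symm) h1
    have e2 := congrArg (List.map τ.symm) h2
    rw [List.map_map, Equiv.symm_comp_self, List.map_id] at e1 e2
    refine ⟨τ.symm p, τ.symm r, X.map τ.symm, X'.map τ.symm, by simpa using e1,
      by simpa using e2, ?_, ?_⟩
    · intro x hx hx'
      rw [List.mem_map] at hx
      obtain ⟨y, hy, rfl⟩ := hx
      refine h3 y hy ?_
      rw [← τ.apply_symm_apply y, hm]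
      exact hx'
    · intro x hx hx'
      rw [List.mem_map] at hx
      obtain ⟨y, hy, rfl⟩ := hx
      refine h4 y hy ?_
      rw [← τ.apply_symm_apply y, hm]
      exact hx'
  · rintro ⟨p, r, X, X', h1, h2, h3, h4⟩
    refine ⟨τ p, τ r, X.map τ, X'.map τ, by rw [h1]; simp, by rw [h2]; simp, ?_, ?_⟩
    · intro x hx hx'
      rw [List.mem_map] at hx
      obtain ⟨y, hy, rfl⟩ := hx
      exact h3 y hy ((hm _ _).1 hx')
    · intro x hx hx'
      rw [List.mem_map] at hx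
      obtain ⟨y, hy, rfl⟩ := hx
      exact h4 y hy ((hm _ _).1 hx')

theorem seg_map {τ : ℤ × ℤ ≃ ℤ × ℤ} (U l : List P) : U.map τ <:+: l.map τ ↔ U <:+: l := by
  constructor
  · intro h
    have h1 := h.map τ.symm
    rw [List.map_map, List.map_map, Equiv.symm_comp_self, List.map_id, List.map_id] at h1
    exact h1
  · intro h
    exact h.map τ

theorem free_map {τ : ℤ × ℤ ≃ ℤ × ℤ} (U U' l : List P) :
    Free (U.map τ) (U'.map τ) (l.map τ) ↔ Free U U' l := by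
  have hm : ∀ (x : P) (l : List P), τ x ∈ l.map τ ↔ x ∈ l := fun x l =>
    List.mem_map_of_injective τ.injective
  unfold Free
  rw [seg_map]
  refine and_congr_right fun _ => ?_
  constructor
  · intro h x hx hx' hx2
    exact h (τ x) ((hm _ _).2 hx) (fun hc => hx' ((hm _ _).1 hc)) ((hm _ _).2 hx2)
  · intro h x hx hx' hx2
    rw [List.mem_map] at hx
    obtain ⟨y, hy, rfl⟩ := hx
    exact h y hy (fun hc => hx' ((hm _ _).2 hc)) ((hm _ _).1 hx2)

/-- the upward moves of a walk -/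
theorem mem_S_iff {τ : ℤ × ℤ ≃ ℤ × ℤ} {a : ℤ × ℤ} (hτa : τ a = 0)
    (hτ : ∀ p q, AdjH (τ p) (τ q) ↔ AdjH p q) (Pr : P → Prop) (b : ℤ × ℤ) (m : ℕ)
    {l : List P} (hl : l.map τ ∈ KR Hex.A (fun e y => e = τ b ∧ Pr (τ.symm y)) m) (k s : ℕ)
    (U U' : List P) :
    (U.map τ, U'.map τ) ∈ (inn (hdet k s) (fun e y => e = τ b ∧ Pr (τ.symm y))).sys.S (l.map τ) ↔
      (Pair AdjH U U' ∧ U.length = k ∧ U'.length = k + s) ∧ U <:+: l ∧
        ∀ v ∈ U', v ∉ U → Pr v ∧ v ∉ l := by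
  have hl' := (mem_KR_iff hτa hτ Pr b m l).2 hl
  obtain ⟨⟨h1, h2, h3, h4, h5⟩, h6⟩ := hl'
  have hlst : lst (l.map τ) = τ b := Q78.UR.HexDom.lst_map _ h2
  rw [mem_sysS, Rule.mem_S, hlst]
  show ((Pair Hex.A (U.map τ) (U'.map τ) ∧ (U.map τ).length = k ∧ (U'.map τ).length = k + s) ∧
    Free (U.map τ) (U'.map τ) (l.map τ)) ∧
    ((∀ x ∈ U.map τ, τ b = τ b ∧ Pr (τ.symm x)) ∧ ∀ x ∈ U'.map τ, τ b = τ b ∧ Pr (τ.symm x)) ↔ _
  rw [pair_map hτ, free_map, List.length_map, List.length_map]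
  have e : ∀ V : List P, (∀ x ∈ V.map τ, τ b = τ b ∧ Pr (τ.symm x)) ↔ ∀ x ∈ V, Pr x := by
    intro V
    constructor
    · intro h x hx
      have := (h (τ x) (List.mem_map.2 ⟨x, hx, rfl⟩)).2
      rwa [Equiv.symm_apply_apply] at this
    · intro h x hx
      rw [List.mem_map] at hx
      obtain ⟨y, hy, rfl⟩ := hx
      rw [Equiv.symm_apply_apply]
      exact ⟨rfl, h y hy⟩
  rw [e, e]
  unfold Free
  constructor
  · rintro ⟨⟨h7, h8, h9⟩, h10, h11⟩
    exact ⟨h7, h8, fun v hv hv' => ⟨h11 v hv, h9 v hv hv'⟩⟩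
  · rintro ⟨h7, h8, h9⟩
    refine ⟨⟨h7, h8, fun v hv hv' => (h9 v hv hv').2⟩, fun x hx => h5 x (h8.subset hx),
      fun x hx => ?_⟩
    by_cases hxU : x ∈ U
    · exact h5 x (h8.subset hxU)
    · exact (h9 x hx hxU).1

/-- the downward moves of a walk -/
theorem mem_B_iff {τ : ℤ × ℤ ≃ ℤ × ℤ} {a : ℤ × ℤ} (hτa : τ a = 0)
    (hτ : ∀ p q, AdjH (τ p) (τ q) ↔ AdjH p q) (Pr : P → Prop) (b : ℤ × ℤ) (m : ℕ)
    {l : List P} (hl : l.map τ ∈ KR Hex.A (fun e y => e = τ b ∧ Pr (τ.symm y)) m) (k s : ℕ)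
    (U U' : List P) :
    (U.map τ, U'.map τ) ∈ (inn (hdet k s) (fun e y => e = τ b ∧ Pr (τ.symm y))).sys.B (l.map τ) ↔
      (Pair AdjH U U' ∧ U.length = k ∧ U'.length = k + s) ∧ U' <:+: l ∧
        ∀ v ∈ U, v ∉ U' → Pr v ∧ v ∉ l := by
  have hl' := (mem_KR_iff hτa hτ Pr b m l).2 hl
  obtain ⟨⟨h1, h2, h3, h4, h5⟩, h6⟩ := hl'
  have hlst : lst (l.map τ) = τ b := Q78.UR.HexDom.lst_map _ h2
  rw [mem_sysB, Rule.mem_B, hlst]
  show ((Pair Hex.A (U.map τ) (U'.map τ) ∧ (U.map τ).length = k ∧ (U'.map τ).length = k + s) ∧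
    Free (U'.map τ) (U.map τ) (l.map τ)) ∧
    ((∀ x ∈ U.map τ, τ b = τ b ∧ Pr (τ.symm x)) ∧ ∀ x ∈ U'.map τ, τ b = τ b ∧ Pr (τ.symm x)) ↔ _
  rw [pair_map hτ, free_map, List.length_map, List.length_map]
  have e : ∀ V : List P, (∀ x ∈ V.map τ, τ b = τ b ∧ Pr (τ.symm x)) ↔ ∀ x ∈ V, Pr x := by
    intro V
    constructor
    · intro h x hx
      have := (h (τ x) (List.mem_map.2 ⟨x, hx, rfl⟩)).2
      rwa [Equiv.symm_apply_apply] at this
    · intro h x hx
      rw [List.mem_map] at hx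
      obtain ⟨y, hy, rfl⟩ := hx
      rw [Equiv.symm_apply_apply]
      exact ⟨rfl, h y hy⟩
  rw [e, e]
  unfold Free
  constructor
  · rintro ⟨⟨h7, h8, h9⟩, h10, h11⟩
    exact ⟨h7, h8, fun v hv hv' => ⟨h10 v hv, h9 v hv hv'⟩⟩
  · rintro ⟨h7, h8, h9⟩
    refine ⟨⟨h7, h8, fun v hv hv' => (h9 v hv hv').2⟩, fun x hx => ?_,
      fun x hx => h5 x (h8.subset hx)⟩
    by_cases hxU : x ∈ U'
    · exact h5 x (h8.subset hxU)
    · exact (h9 x hx hxU).1

end

end Q78.CV
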