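import Pool.Agent.Q78.CV.Det

set_option autoImplicit false

/-! The ratio of the numbers of patterns. -/

namespace Q78.CV

open Finset Filter Topology TH966.AK Q294.Rs
open scoped Classical

noncomputable section

variable {A : P → P → Prop} {Z : Rule A} {μ : ℝ}

/-- the number of upward moves -/
def nS (Z : Rule A) (R : P → P → Prop) (w : List P) : ℝ := (((inn Z R).sys.S w).card : ℝ)

/-- the number of downward moves -/
def nB (Z : Rule A) (R : P → P → Prop) (w : List P) : ℝ := (((inn Z R).sys.B w).card : ℝ)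

theorem sub_S (Z' : Rule A) (hZ : ∀ U U', Z.T U U' → Z'.T U U') (R : P → P → Prop) (w : List P) :
    (((inn Z R).sys.S w).card : ℝ) ≤ nS Z' R w := by
  unfold nS
  have : (inn Z R).sys.S w ⊆ (inn Z' R).sys.S w := by
    intro q hq
    rw [mem_sysS, Rule.mem_S] at hq ⊢
    exact ⟨⟨hZ _ _ hq.1.1, hq.1.2⟩, hq.2⟩
  exact_mod_cast card_le_card this

theorem ratio_law (G : Loc Z μ) (Z' : Rule A) (hZ : ∀ U U', Z.T U U' → Z'.T U U') :
    ∃ C κ r : ℝ, 0 < C ∧ 1 < κ ∧ 0 < r ∧ r < 1 ∧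
    ∀ (R : P → P → Prop) (N : ℕ), (∀ n, N ≤ n → KR A R n = ∅) → ∀ x : ℝ, 0 < x → x * μ ≤ κ →
    ∀ m : ℕ, 1 ≤ m → ∀ ε : ℝ, 0 < ε →
    ∑ n ∈ range N, x ^ n * (((KR A R n).filter (fun w => m ≤ n ∧
        ε * nS Z' R w ≤ |nB Z' R w - x ^ Z'.s * nS Z' R w|)).card : ℝ) ≤
      C / (ε ^ 2 * m) * TT A R x N + C * r ^ m := by
  obtain ⟨M, θ, C', hM, hθ0, hθ1, hC', hbad⟩ := badU G
  have hμ := G.hμ
  have hμ0 : 0 < μ := by linarith
  obtain ⟨κ, hκ⟩ : ∃ κ : ℝ, κ = (1 + 1 / θ) / 2 := ⟨_, rfl⟩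
  have hθi : 1 < 1 / θ := by rw [lt_div_iff₀ hθ0]; linarith
  have hκ1 : 1 < κ := by rw [hκ]; linarith
  have hκθ0 : 0 < κ * θ := by positivity
  have hκθ : κ * θ < 1 := by
    rw [hκ]
    have : (1 + 1 / θ) / 2 * θ = (θ + 1) / 2 := by field_simp
    rw [this]
    linarith
  obtain ⟨B, hB, hsum⟩ := expo_sum hκθ0 hκθ
  obtain ⟨r, hr⟩ : ∃ r, r = (1 + κ * θ) / 2 := ⟨_, rfl⟩
  rw [← hr] at hsum
  have hMR : (1 : ℝ) ≤ M := by exact_mod_cast hM
  obtain ⟨Y, hY⟩ : ∃ Y : ℝ, Y = κ ^ Z'.s * (1 + κ ^ Z'.s) := ⟨_, rfl⟩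
  have hY0 : 0 < Y := by rw [hY]; positivity
  have hC2 := C2_nonneg Z'
  refine ⟨4 * M ^ 2 * (C2 Z' * Y) + C' * B + 1, κ, r, by positivity, hκ1, by rw [hr]; linarith,
    by rw [hr]; linarith, ?_⟩
  intro R N hN x hx hxκ m hm ε hε
  obtain ⟨y, hy⟩ : ∃ y, y = x ^ Z'.s := ⟨_, rfl⟩
  have hy0 : 0 < y := by rw [hy]; positivity
  have hxκ' : x ≤ κ := by nlinarith
  have hyY : y * (1 + y) ≤ Y := by
    have : y ≤ κ ^ Z'.s := by rw [hy]; exact pow_le_pow_left₀ hx.le hxκ' _
    rw [hY]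
    exact mul_le_mul this (by linarith) (by linarith) (by positivity)
  have hmR : (1 : ℝ) ≤ m := by exact_mod_cast hm
  have hT0 : 0 ≤ TT A R x N := by
    unfold TT
    exact sum_nonneg fun _ _ => by positivity
  -- split
  have h1 : ∀ n ∈ range N, x ^ n * (((KR A R n).filter (fun w => m ≤ n ∧
        ε * nS Z' R w ≤ |nB Z' R w - x ^ Z'.s * nS Z' R w|)).card : ℝ) ≤
      (4 * M ^ 2 / ε ^ 2) * (x ^ n * ∑ w ∈ KR A R n,
        ((x ^ Z'.s * NS (inn Z' R) (fun _ => 1) w - NB (inn Z' R) (fun _ => 1) w) /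
          ((max (n + 1) m : ℕ) : ℝ)) ^ 2) +
      C' * (if m ≤ n then ((n : ℝ) + 1) * (κ * θ) ^ n else 0) := by
    intro n _
    by_cases hmn : m ≤ n
    · rw [if_pos hmn]
      have hn0 : (0 : ℝ) ≤ n := Nat.cast_nonneg n
      have hn1 : (1 : ℝ) ≤ n := by exact_mod_cast hm.trans hmn
      have hcov : (KR A R n).filter (fun w => m ≤ n ∧
          ε * nS Z' R w ≤ |nB Z' R w - x ^ Z'.s * nS Z' R w|) ⊆
          (inn Z R).sys.bad M n ∪ (KR A R n).filter (fun w =>
            ε / (2 * M) ≤ |(x ^ Z'.s * NS (inn Z' R) (fun _ => 1) w -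
              NB (inn Z' R) (fun _ => 1) w) / ((max (n + 1) m : ℕ) : ℝ)|) := by
        intro w hw
        rw [mem_filter] at hw
        obtain ⟨hw, -, hε'⟩ := hw
        rw [mem_union]
        by_cases hg : (inn Z R).sys.good M n w
        · right
          rw [mem_filter]
          refine ⟨hw, ?_⟩
          have e1 : NS (inn Z' R) (fun _ => 1) w = nS Z' R w := by unfold NS nS; simp
          have e2 : NB (inn Z' R) (fun _ => 1) w = nB Z' R w := by unfold NB nB; simp
          have e3 : max (n + 1) m = n + 1 := by omega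
          rw [e1, e2, e3, abs_div, abs_of_pos (show (0 : ℝ) < ((n + 1 : ℕ) : ℝ) by positivity),
            abs_sub_comm, le_div_iff₀ (by positivity)]
          refine le_trans ?_ hε'
          have h2 : (n : ℝ) < M * nS Z' R w := by
            have h3 : (n : ℝ) < M * (((inn Z R).sys.S w).card : ℝ) := by exact_mod_cast hg.1
            exact h3.trans_le (mul_le_mul_of_nonneg_left (sub_S Z' hZ R w) (by linarith))
          push_cast
          rw [div_mul_eq_mul_div, div_le_iff₀ (by positivity)]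
          have h4 : (n : ℝ) + 1 ≤ 2 * M * nS Z' R w := by linarith
          calc ε * ((n : ℝ) + 1) ≤ ε * (2 * M * nS Z' R w) :=
                mul_le_mul_of_nonneg_left h4 hε.le
            _ = _ := by ring
        · left
          rw [Sys.not_good] at hg
          unfold Sys.bad
          rw [mem_filter]
          exact ⟨hw, hg⟩
      have hcard : (((KR A R n).filter (fun w => m ≤ n ∧
          ε * nS Z' R w ≤ |nB Z' R w - x ^ Z'.s * nS Z' R w|)).card : ℝ) ≤
          (((inn Z R).sys.bad M n).card : ℝ) + (((KR A R n).filter (fun w =>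
            ε / (2 * M) ≤ |(x ^ Z'.s * NS (inn Z' R) (fun _ => 1) w -
              NB (inn Z' R) (fun _ => 1) w) / ((max (n + 1) m : ℕ) : ℝ)|)).card : ℝ) := by
        exact_mod_cast (card_le_card hcov).trans (card_union_le _ _)
      have hmk : (((KR A R n).filter (fun w =>
            ε / (2 * M) ≤ |(x ^ Z'.s * NS (inn Z' R) (fun _ => 1) w -
              NB (inn Z' R) (fun _ => 1) w) / ((max (n + 1) m : ℕ) : ℝ)|)).card : ℝ) ≤
          4 * M ^ 2 / ε ^ 2 * ∑ w ∈ KR A R n,
        ((x ^ Z'.s * NS (inn Z' R) (fun _ => 1) w - NB (inn Z' R) (fun _ => 1) w) /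
          ((max (n + 1) m : ℕ) : ℝ)) ^ 2 := by
        rw [mul_sum]
        refine le_trans ?_ (sum_le_sum_of_subset_of_nonneg (filter_subset (fun w =>
            ε / (2 * M) ≤ |(x ^ Z'.s * NS (inn Z' R) (fun _ => 1) w -
              NB (inn Z' R) (fun _ => 1) w) / ((max (n + 1) m : ℕ) : ℝ)|) _)
            fun _ _ _ => by positivity)
        rw [← nsmul_one]
        refine card_nsmul_le_sum _ _ _ fun w hw => ?_
        rw [mem_filter] at hw
        have h3 := pow_le_pow_left₀ (by positivity) hw.2 2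
        rw [sq_abs] at h3
        calc (1 : ℝ) = 4 * M ^ 2 / ε ^ 2 * (ε / (2 * M)) ^ 2 := by field_simp; norm_num
          _ ≤ _ := mul_le_mul_of_nonneg_left h3 (by positivity)
      have hbd : x ^ n * (((inn Z R).sys.bad M n).card : ℝ) ≤
          C' * (((n : ℝ) + 1) * (κ * θ) ^ n) := by
        calc x ^ n * (((inn Z R).sys.bad M n).card : ℝ) ≤ x ^ n * (C' * (θ * μ) ^ n) :=
              mul_le_mul_of_nonneg_left (hbad R n) (by positivity)
          _ = C' * ((x * μ) * θ) ^ n := by rw [mul_pow, mul_pow, mul_pow]; ring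
          _ ≤ C' * (κ * θ) ^ n := by gcongr
          _ ≤ C' * (((n : ℝ) + 1) * (κ * θ) ^ n) := by
              refine mul_le_mul_of_nonneg_left ?_ hC'
              refine le_mul_of_one_le_left (by positivity) (by linarith)
      calc _ ≤ x ^ n * (_ + _) := mul_le_mul_of_nonneg_left hcard (by positivity)
        _ = x ^ n * (((inn Z R).sys.bad M n).card : ℝ) + x ^ n * _ := mul_add _ _ _
        _ ≤ C' * (((n : ℝ) + 1) * (κ * θ) ^ n) + x ^ n * (4 * M ^ 2 / ε ^ 2 * _) :=
            add_le_add hbd (mul_le_mul_of_nonneg_left hmk (by positivity))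
        _ = _ := by ring
    · rw [if_neg hmn]
      have : (KR A R n).filter (fun w => m ≤ n ∧
          ε * nS Z' R w ≤ |nB Z' R w - x ^ Z'.s * nS Z' R w|) = ∅ := by
        rw [filter_eq_empty_iff]
        intro w _ h
        exact hmn h.1
      rw [this, card_empty, Nat.cast_zero, mul_zero, mul_zero, add_zero]
      positivity
  refine (sum_le_sum h1).trans ?_
  rw [sum_add_distrib, ← mul_sum, ← mul_sum]
  have h2 := bal (inn Z' R) hx (h := fun _ => 1) (fun _ => by simp) N hN m hm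
  have h3 := hsum m N
  have hTT : ∑ n ∈ range N, x ^ n * (((inn Z' R).K n).card : ℝ) = TT A R x N := rfl
  rw [hTT, ← hy] at h2
  have e1 : (inn Z' R).K = KR A R := rfl
  rw [e1] at h2
  rw [← hy]
  calc _ ≤ 4 * M ^ 2 / ε ^ 2 * (C2 Z' * (y * (1 + y)) / m * TT A R x N) + C' * (B * r ^ m) :=
        add_le_add (mul_le_mul_of_nonneg_left h2 (by positivity))
          (mul_le_mul_of_nonneg_left h3 hC')
    _ ≤ 4 * M ^ 2 / ε ^ 2 * (C2 Z' * Y / m * TT A R x N) + C' * (B * r ^ m) := by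
        gcongr
    _ = 4 * M ^ 2 * (C2 Z' * Y) / (ε ^ 2 * m) * TT A R x N + C' * B * r ^ m := by
        field_simp
    _ ≤ _ := by
        have hr0 : 0 < r := by rw [hr]; linarith
        gcongr
        · have : 0 ≤ C' * B := by positivity
          linarith
        · have : 0 ≤ 4 * M ^ 2 * (C2 Z' * Y) := by positivity
          linarith

end

end Q78.CV
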